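import Pool.Agent.H29.TC.FR

/-!
# Bessel's inequality for the multiplicative characters in a coset: finite rings
-/

set_option autoImplicit false

open Finset

namespace Pool.Agent.H19.DM.BE

open Pool.Agent.H29.TC

/-- Bessel's inequality for orthogonal vectors of bounded norm -/
theorem bessel_hilbert {E ι : Type} [NormedAddCommGroup E] [InnerProductSpace ℂ E] (s : Finset ι)
    (v : ι → E) (N : ℝ) (hN0 : 0 ≤ N) (hN : ∀ i ∈ s, ‖v i‖ ^ 2 ≤ N) (h0 : ∀ i ∈ s, v i ≠ 0)
    (ho : ∀ i ∈ s, ∀ j ∈ s, i ≠ j → inner ℂ (v i) (v j) = 0) (x : E) :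
    ∑ i ∈ s, ‖inner ℂ (v i) x‖ ^ 2 ≤ N * ‖x‖ ^ 2 := by
  classical
  set u : {i // i ∈ s} → E := fun i => ((‖v i‖⁻¹ : ℝ) : ℂ) • v i with hu
  have hpos : ∀ i ∈ s, 0 < ‖v i‖ := fun i hi => norm_pos_iff.mpr (h0 i hi)
  have hon : Orthonormal ℂ u := by
    refine ⟨fun i => ?_, fun i j hij => ?_⟩
    · rw [hu]
      simp only
      rw [norm_smul, Complex.norm_real, Real.norm_eq_abs, abs_of_nonneg (inv_nonneg.mpr
        (norm_nonneg _)), inv_mul_cancel₀ (hpos i i.2).ne']
    · rw [hu]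
      simp only
      rw [inner_smul_left, inner_smul_right, ho i i.2 j j.2 (fun h => hij (Subtype.ext h))]
      simp
  have h1 := hon.sum_inner_products_le (x := x) (s := Finset.univ)
  rw [← Finset.sum_coe_sort s]
  calc ∑ i : {i // i ∈ s}, ‖inner ℂ (v i) x‖ ^ 2 ≤ ∑ i : {i // i ∈ s},
        N * ‖inner ℂ (u i) x‖ ^ 2 := by
        refine Finset.sum_le_sum fun i _ => ?_
        have h2 : ‖inner ℂ (v i) x‖ ^ 2 = ‖v i‖ ^ 2 * ‖inner ℂ (u i) x‖ ^ 2 := by
          rw [hu]
          simp only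
          rw [inner_smul_left, norm_mul, RCLike.norm_conj, Complex.norm_real, Real.norm_eq_abs,
            abs_of_nonneg (inv_nonneg.mpr (norm_nonneg _)), mul_pow, ← mul_assoc, ← mul_pow,
            mul_inv_cancel₀ (hpos i i.2).ne', one_pow, one_mul]
        rw [h2]
        exact mul_le_mul_of_nonneg_right (hN i i.2) (by positivity)
    _ = N * ∑ i : {i // i ∈ s}, ‖inner ℂ (u i) x‖ ^ 2 := by rw [Finset.mul_sum]
    _ ≤ N * ‖x‖ ^ 2 := mul_le_mul_of_nonneg_left h1 hN0

section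

variable {R Q : Type} [CommRing R] [CommRing Q] (p : R →+* Q) (hp : Function.Surjective p)
  (hnil : ∀ j, p j = 0 → IsNilpotent j)

/-- the quotient of two characters -/
noncomputable def qc (η η₀ : R → ℂ) (y : R) : ℂ := η y * (starRingEnd ℂ) (η₀ y)

theorem qc_mul {η η₀ : R → ℂ} (h : MC η) (h₀ : MC η₀) (x y : R) :
    qc η η₀ (x * y) = qc η η₀ x * qc η η₀ y := by
  rw [qc, qc, qc, h.mul, h₀.mul, map_mul]
  ring

theorem qc_norm {η η₀ : R → ℂ} (h : MC η) (h₀ : MC η₀) (x : R) : ‖qc η η₀ x‖ ≤ 1 := by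
  rw [qc, norm_mul, RCLike.norm_conj]
  exact mul_le_one₀ (h.norm_le _) (norm_nonneg _) (h₀.norm_le _)

theorem qc_zero {η η₀ : R → ℂ} (h : MC η) {x : R} (hx : ¬ IsUnit x) : qc η η₀ x = 0 := by
  rw [qc, h.zero x hx, zero_mul]

theorem qc_back {η η₀ : R → ℂ} (h : MC η) (h₀ : MC η₀) (x : R) : η x = qc η η₀ x * η₀ x := by
  by_cases hx : IsUnit x
  · rw [qc, mul_assoc, h₀.conj_mul hx, mul_one]
  · rw [h.zero x hx, qc_zero h hx, zero_mul]

include hnil in
theorem qc_per {η η₀ : R → ℂ} (h : MC η) (h₀ : MC η₀)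
    (heq : ∀ j, p j = 0 → η (1 + j) = η₀ (1 + j)) {x y : R} (hxy : p x = p y) :
    qc η η₀ x = qc η η₀ y := by
  have hj : p (y - x) = 0 := by rw [map_sub, hxy, sub_self]
  by_cases hx : IsUnit x
  · obtain ⟨u, rfl⟩ := hx
    have hj2 : p ((u⁻¹ : Rˣ) * (y - u)) = 0 := by rw [map_mul, hj, mul_zero]
    have e : y = u * (1 + (u⁻¹ : Rˣ) * (y - u)) := by
      have h1 : (u : R) * (u⁻¹ : Rˣ) = 1 := by simp
      linear_combination (-(y - (u : R))) * h1
    have hun : IsUnit (1 + (u⁻¹ : Rˣ) * (y - u) : R) :=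
      unit_add_nil isUnit_one (hnil _ hj2)
    rw [e, qc_mul h h₀, qc, qc, heq _ hj2, mul_comm (η₀ _), h₀.conj_mul hun, mul_one]
  · have hy : ¬ IsUnit y := by
      intro hy
      apply hx
      have hj2 : p (x - y) = 0 := by rw [map_sub, hxy, sub_self]
      have e : x = y + (x - y) := by ring
      rw [e]
      exact unit_add_nil hy (hnil _ hj2)
    rw [qc_zero h hx, qc_zero h hy]

include hp hnil in
/-- Bessel's inequality for the characters in a coset -/
theorem bessel [Fintype Q] {X : Type} (H : Finset (R → ℂ)) (η₀ : R → ℂ) (h₀ : MC η₀)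
    (hH : ∀ η ∈ H, MC η) (heq : ∀ η ∈ H, ∀ j, p j = 0 → η (1 + j) = η₀ (1 + j)) (s : Finset X)
    (c : X → R) (b : X → ℂ) : open scoped Classical in
    ∑ η ∈ H, ‖∑ x ∈ s, η (c x) * b x‖ ^ 2 ≤ (Fintype.card Q : ℝ) *
      (∑ x ∈ s, ∑ x' ∈ s, if p (c x) = p (c x') then
        η₀ (c x) * (starRingEnd ℂ) (η₀ (c x')) * (b x * (starRingEnd ℂ) (b x')) else 0).re := by
  classical
  set G : (R → ℂ) → Q → ℂ := fun η q => qc η η₀ (Function.surjInv hp q) with hG
  have hGp : ∀ η ∈ H, ∀ y, G η (p y) = qc η η₀ y := fun η hη y =>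
    qc_per p hnil (hH η hη) h₀ (heq η hη) (Function.surjInv_eq hp (p y))
  have hGm : ∀ η ∈ H, ∀ (u : R) (q : Q), G η (p u * q) = G η (p u) * G η q := by
    intro η hη u q
    obtain ⟨y, rfl⟩ := hp q
    rw [← map_mul, hGp η hη, hGp η hη, hGp η hη, qc_mul (hH η hη) h₀]
  set B : Q → ℂ := fun q => ∑ x ∈ s, if p (c x) = q then η₀ (c x) * b x else 0 with hB
  set v : (R → ℂ) → EuclideanSpace ℂ Q := fun η =>
    WithLp.toLp 2 (fun q => (starRingEnd ℂ) (G η q)) with hv
  set w : EuclideanSpace ℂ Q := WithLp.toLp 2 B with hw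
  have hsum : ∀ η ∈ H, inner ℂ (v η) w = ∑ x ∈ s, η (c x) * b x := by
    intro η hη
    rw [PiLp.inner_apply]
    simp only [hv, hw, RCLike.inner_apply, Complex.conj_conj]
    rw [hB]
    simp only [Finset.sum_mul]
    rw [Finset.sum_comm]
    refine Finset.sum_congr rfl fun x _ => ?_
    simp only [ite_mul, zero_mul]
    rw [Finset.sum_ite_eq, if_pos (Finset.mem_univ _), hGp η hη]
    conv_rhs => rw [qc_back (hH η hη) h₀ (c x)]
    ring
  have hnorm : ∀ η ∈ H, ‖v η‖ ^ 2 ≤ (Fintype.card Q : ℝ) := by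
    intro η hη
    rw [EuclideanSpace.norm_sq_eq]
    calc ∑ q, ‖(v η) q‖ ^ 2 ≤ ∑ _q : Q, (1 : ℝ) := by
          refine Finset.sum_le_sum fun q _ => ?_
          rw [hv]
          simp only
          rw [RCLike.norm_conj]
          exact pow_le_one₀ (norm_nonneg _) (qc_norm (hH η hη) h₀ _)
      _ = (Fintype.card Q : ℝ) := by simp
  have hne : ∀ η ∈ H, v η ≠ 0 := by
    intro η hη h
    have h1 : (v η) (p 1) = 0 := by rw [h]; rfl
    rw [hv] at h1
    simp only at h1
    rw [hGp η hη, qc, (hH η hη).one, h₀.one] at h1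
    simp at h1
  have hort : ∀ η ∈ H, ∀ η' ∈ H, η ≠ η' → inner ℂ (v η) (v η') = 0 := by
    intro η hη η' hη' hne
    obtain ⟨u, hu, hune⟩ : ∃ u : R, IsUnit u ∧ η u ≠ η' u := by
      by_contra hcon
      push Not at hcon
      apply hne
      funext y
      by_cases hy : IsUnit y
      · exact hcon y hy
      · rw [(hH η hη).zero y hy, (hH η' hη').zero y hy]
    have hS : inner ℂ (v η) (v η') = ∑ q, (starRingEnd ℂ) (G η' q) * G η q := by
      rw [PiLp.inner_apply]
      simp only [hv, RCLike.inner_apply, Complex.conj_conj]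
    rw [hS]
    set S : ℂ := ∑ q, (starRingEnd ℂ) (G η' q) * G η q with hSdef
    have hbij : Function.Bijective (fun q : Q => p u * q) := by
      have hpu : IsUnit (p u) := hu.map p
      exact IsUnit.isUnit_iff_mulLeft_bijective.mp hpu
    have h1 : S = ((starRingEnd ℂ) (G η' (p u)) * G η (p u)) * S := by
      conv_lhs => rw [hSdef, ← hbij.sum_comp]
      rw [hSdef, Finset.mul_sum]
      refine Finset.sum_congr rfl fun q _ => ?_
      rw [hGm η hη, hGm η' hη', map_mul]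
      ring
    have h2 : (starRingEnd ℂ) (G η' (p u)) * G η (p u) = (starRingEnd ℂ) (η' u) * η u := by
      rw [hGp η hη, hGp η' hη', qc, qc, map_mul, Complex.conj_conj]
      linear_combination ((starRingEnd ℂ) (η' u) * η u) * h₀.conj_mul hu
    have h3 : (starRingEnd ℂ) (η' u) * η u ≠ 1 := by
      intro h4
      apply hune
      have h5 := (hH η' hη').conj_mul hu
      linear_combination η' u * h4 - η u * h5
    rw [h2] at h1
    have h6 : (1 - (starRingEnd ℂ) (η' u) * η u) * S = 0 := by linear_combination h1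
    rcases mul_eq_zero.mp h6 with h7 | h7
    · exact absurd (sub_eq_zero.mp h7).symm h3
    · exact h7
  have hfin := bessel_hilbert H v (Fintype.card Q : ℝ) (by positivity) hnorm hne hort w
  rw [Finset.sum_congr rfl (fun η hη => by rw [hsum η hη])] at hfin
  refine hfin.trans (le_of_eq ?_)
  congr 1
  have h8 : ((‖w‖ ^ 2 : ℝ) : ℂ) = ∑ x ∈ s, ∑ x' ∈ s, if p (c x) = p (c x') then
        η₀ (c x) * (starRingEnd ℂ) (η₀ (c x')) * (b x * (starRingEnd ℂ) (b x')) else 0 := by
    rw [EuclideanSpace.norm_sq_eq, Complex.ofReal_sum]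
    have h9 : ∀ q : Q, ((‖w q‖ ^ 2 : ℝ) : ℂ) = ∑ x ∈ s, ∑ x' ∈ s,
        if p (c x) = q then (if p (c x') = q then η₀ (c x) * (starRingEnd ℂ) (η₀ (c x')) *
          (b x * (starRingEnd ℂ) (b x')) else 0) else 0 := by
      intro q
      have h10 : ((‖w q‖ ^ 2 : ℝ) : ℂ) = B q * (starRingEnd ℂ) (B q) := by
        rw [Complex.mul_conj, Complex.normSq_eq_norm_sq]
      rw [h10, hB]
      simp only
      rw [map_sum, Finset.sum_mul_sum]
      refine Finset.sum_congr rfl fun x _ => Finset.sum_congr rfl fun x' _ => ?_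
      split_ifs
      · rw [map_mul]; ring
      · simp
      · simp
      · simp
    rw [Finset.sum_congr rfl (fun q _ => h9 q), Finset.sum_comm]
    refine Finset.sum_congr rfl fun x _ => ?_
    rw [Finset.sum_comm]
    refine Finset.sum_congr rfl fun x' _ => ?_
    rw [Finset.sum_ite_eq, if_pos (Finset.mem_univ _)]
    by_cases hxx : p (c x) = p (c x')
    · rw [if_pos hxx, if_pos hxx.symm]
    · rw [if_neg hxx, if_neg (fun h => hxx h.symm)]
  rw [← h8, Complex.ofReal_re]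

end

end Pool.Agent.H19.DM.BE
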