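import Pool.Agent.H23.DM.TargetsI
import Pool.Agent.H97.SWX.CF0
import Pool.Agent.H19.DM.BE0

/-!
# The twelfth moment in the whole conductor: row BE
-/

set_option autoImplicit false

open NumberField NumberField.InfinitePlace NumberField.Units
  NumberField.Units.dirichletUnitTheorem MeasureTheory Set Filter Complex
open scoped nonZeroDivisors ENNReal

namespace Pool.Agent.H19.DM.BE

open Pool.Agent.H25.HK Pool.Agent.H23.LB Pool.Agent.H23.LC
open Pool.Agent.H29.TC (Gn cq MC)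
open Pool.Agent.H26.THC Pool.Agent.H26.GLA
open Pool.Agent.H97.SWX.CF
open Pool.Agent.H23.DM

variable {K : Type} [Field K] [NumberField K]

open scoped Classical in
/-- the coordinate -/
noncomputable def crd (k : Ideal (𝓞 K)) (M : FI K) (x₀ x : K) : 𝓞 K :=
  if h : ∃ a : 𝓞 K, x - (a : K) * x₀ ∈ (k : FI K) * M then h.choose else 0

omit [NumberField K] in
theorem crd_spec {k : Ideal (𝓞 K)} {M : FI K} {x₀ : K} (h : Gn k M x₀) {x : K} (hx : x ∈ M) :
    x - (crd k M x₀ x : K) * x₀ ∈ (k : FI K) * M ∧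
      ∀ η : 𝓞 K ⧸ k → ℂ, cq k η M x₀ x = η (Ideal.Quotient.mk k (crd k M x₀ x)) := by
  obtain ⟨a, -, ha⟩ := h.gen x hx
  have hex : ∃ a : 𝓞 K, x - (a : K) * x₀ ∈ (k : FI K) * M := ⟨a, ha⟩
  refine ⟨?_, fun η => ?_⟩
  · rw [crd, dif_pos hex]
    exact hex.choose_spec
  · rw [cq, dif_pos hex, crd, dif_pos hex]

theorem crd_iff {k κ : Ideal (𝓞 K)} (hkκ : k ≤ κ) {M : FI K} {x₀ : K} (h : Gn k M x₀) {x x' : K}
    (hx : x ∈ M) (hx' : x' ∈ M) :
    x - x' ∈ (κ : FI K) * M ↔ crd k M x₀ x - crd k M x₀ x' ∈ κ := by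
  have h1 := mul_mono_FI hkκ M (crd_spec h hx).1
  have h2 := mul_mono_FI hkκ M (crd_spec h hx').1
  rw [← h.iff _ κ hkκ, csub]
  constructor
  · intro h3
    have e : ((crd k M x₀ x : K) - (crd k M x₀ x' : K)) * x₀ =
        (x - x') - (x - (crd k M x₀ x : K) * x₀) + (x' - (crd k M x₀ x' : K) * x₀) := by ring
    rw [e]
    exact fadd K _ (fsub K _ h3 h1) h2
  · intro h3
    have e : x - x' = ((crd k M x₀ x : K) - (crd k M x₀ x' : K)) * x₀ +
        (x - (crd k M x₀ x : K) * x₀) - (x' - (crd k M x₀ x' : K) * x₀) := by ring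
    rw [e]
    exact fsub K _ (fadd K _ h3 h1) h2

theorem pf_BE : D_BE := by
  intro K _ _ k κ M x₀ H η₀ X a hk hkκ hκr hM hGn h₀ hH heq hX
  classical
  have hκ : κ ≠ ⊥ := by
    rintro rfl
    exact hk (le_bot_iff.mp hkκ)
  have hfin : Finite (𝓞 K ⧸ κ) := Ideal.finiteQuotientOfFreeOfNeBot κ hκ
  let _ : Fintype (𝓞 K ⧸ κ) := Fintype.ofFinite _
  set p : 𝓞 K ⧸ k →+* 𝓞 K ⧸ κ := Ideal.Quotient.factor hkκ with hp
  have hpm : ∀ x : 𝓞 K, p (Ideal.Quotient.mk k x) = Ideal.Quotient.mk κ x := fun x =>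
    Ideal.Quotient.factor_mk hkκ x
  have hps : Function.Surjective p := Ideal.Quotient.factor_surjective hkκ
  have hker : ∀ j : 𝓞 K ⧸ k, p j = 0 → ∃ t ∈ κ, Ideal.Quotient.mk k t = j := by
    intro j hj
    obtain ⟨t, rfl⟩ := Ideal.Quotient.mk_surjective j
    rw [hpm, Ideal.Quotient.eq_zero_iff_mem] at hj
    exact ⟨t, hj, rfl⟩
  have hnil : ∀ j : 𝓞 K ⧸ k, p j = 0 → IsNilpotent j := by
    intro j hj
    obtain ⟨t, ht, rfl⟩ := hker j hj
    obtain ⟨n, hn⟩ := hκr ht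
    refine ⟨n, ?_⟩
    rw [← map_pow, Ideal.Quotient.eq_zero_iff_mem]
    exact hn
  have key := bessel p hps hnil H η₀ h₀ hH (fun η hη j hj => by
    obtain ⟨t, ht, rfl⟩ := hker j hj
    have h1 := heq η hη t ht
    rwa [map_add, map_one] at h1) X (fun x => Ideal.Quotient.mk k (crd k M x₀ x)) a
  have hcard : (Fintype.card (𝓞 K ⧸ κ) : ℝ) = Nf K κ := by
    rw [Nf, Ideal.absNorm_apply, Submodule.cardQuot_apply, Nat.card_eq_fintype_card]
  rw [hcard] at key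
  have e1 : ∀ η : 𝓞 K ⧸ k → ℂ, ∑ x ∈ X, cq k η M x₀ x * a x =
      ∑ x ∈ X, η (Ideal.Quotient.mk k (crd k M x₀ x)) * a x := fun η =>
    Finset.sum_congr rfl fun x hx => by rw [(crd_spec hGn (hX x hx)).2 η]
  simp only [e1]
  refine key.trans (le_of_eq ?_)
  congr 2
  refine Finset.sum_congr rfl fun x hx => Finset.sum_congr rfl fun x' hx' => ?_
  rw [(crd_spec hGn (hX x hx)).2 η₀, (crd_spec hGn (hX x' hx')).2 η₀]
  refine if_congr ?_ rfl rfl
  rw [hpm, hpm, Ideal.Quotient.eq]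
  exact (crd_iff hkκ hGn (hX x hx) (hX x' hx')).symm

end Pool.Agent.H19.DM.BE
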