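import Pool.Agent.H23.DM.TargetsG
import Pool.Agent.H23.DM.TargetsI
import Pool.Agent.H19.TMB.BL
import Pool.Agent.H29.TC.Targets

/-!
# The twelfth moment in the whole conductor: row BL (large values in a block)
-/

set_option autoImplicit false

open NumberField NumberField.InfinitePlace MeasureTheory

namespace Pool.Agent.H19.DM.BL

open Pool.Agent.H25.HK Pool.Agent.H23.LB Pool.Agent.H23.LC Pool.Agent.H23.DM
open Pool.Agent.H27.TM (Dl Cls Maj M_RK M_MJ M_DL)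
open Pool.Agent.H29.DW (dg Rl lf wv Pos rv)
open Pool.Agent.H29.TC (Gn LC cq dvs MC)
open Pool.Agent.H31.SW (EE itg FF DD PP pF dK Pf GG)
open Pool.Agent.H31.SX (ND)
open Pool.Agent.H19.TMB.BL (log_pow absorb collect one_le_PP)

variable {K : Type} [Field K] [NumberField K]

theorem one_le_Nf {f : Ideal (𝓞 K)} (hf : f ≠ ⊥) : 1 ≤ Nf K f := by
  unfold Nf
  have h : Ideal.absNorm f ≠ 0 := fun h => hf (Ideal.absNorm_eq_zero_iff.1 h)
  exact_mod_cast Nat.one_le_iff_ne_zero.2 h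

omit [NumberField K] in
theorem norm_cq_le {k : Ideal (𝓞 K)} {η : 𝓞 K ⧸ k → ℂ} (hη : MC η) (M : FI K) (x₀ x : K) :
    ‖cq k η M x₀ x‖ ≤ 1 := by
  unfold cq
  split_ifs
  · exact hη.norm_le _
  · rw [norm_zero]
    exact zero_le_one

theorem FT_mono {l k r e k' : Ideal (𝓞 K)} {M : FI K} {ρ : K} {A A' : Set K} {ι : Type}
    {I : Finset ι} {q E : ι → K → ℂ} (h : FT l k r e k' M ρ A I q E) (hA : A' ⊆ A) :
    FT l k r e k' M ρ A' I q E where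
  ke := h.ke
  mem δ hδ := h.mem δ (hA hδ)
  norm := h.norm
  per δ hδ := h.per δ (hA hδ)
  ft δ hδ := h.ft δ (hA hδ)

/-- the decomposition of the sum over the half differences into classes -/
theorem OQ_split (q₁ Ψ : Bool → ℂ → ℂ) (A : Set K) (hA : A.Finite) (L : FI K)
    (y : InfinitePlace K → ℝ) (ω : InfinitePlace K → ℂ) (ρ : K) (q : K → ℂ)
    (G : InfinitePlace K → ℝ) (c : InfinitePlace K → ℂ) (N : ℕ) (cl : K → ℕ)
    (hcl : ∀ δ, cl δ < N) : ‖OQ q₁ Ψ A L y ω ρ q G c‖ ≤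
      ∑ t ∈ Finset.range N, ‖OQ q₁ Ψ {δ | δ ∈ A ∧ cl δ = t} L y ω ρ q G c‖ := by
  classical
  obtain ⟨f, hf⟩ : ∃ f : K → ℂ, f = fun δ => ∑' x : {x : K // x ∈ L}, q (ρ + δ + x + δ) *
    (starRingEnd ℂ) (q (ρ + δ + x - δ)) *
    pF (fun v => Pool.Agent.H27.TM.G3 (q₁ (rv v)) (Ψ (rv v)) (G v) (c v) (wv v δ y ω)) y ω
      (ρ + δ + x) := ⟨_, rfl⟩
  have h1 : ∀ B : Set K, OQ q₁ Ψ B L y ω ρ q G c = ∑ᶠ δ ∈ B, f δ := fun B => by rw [hf]; rfl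
  have h2 : OQ q₁ Ψ A L y ω ρ q G c =
      ∑ t ∈ Finset.range N, OQ q₁ Ψ {δ | δ ∈ A ∧ cl δ = t} L y ω ρ q G c := by
    rw [h1, finsum_mem_eq_finite_toFinset_sum f hA,
      ← Finset.sum_fiberwise_of_maps_to (t := Finset.range N) (g := cl)
        (fun δ _ => Finset.mem_range.mpr (hcl δ))]
    refine Finset.sum_congr rfl fun t _ => ?_
    rw [h1, ← finsum_mem_coe_finset]
    have h3 : ((Finset.filter (fun δ => cl δ = t) hA.toFinset : Finset K) : Set K) =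
        {δ | δ ∈ A ∧ cl δ = t} := by
      ext δ
      simp [Finset.coe_filter, Set.Finite.mem_toFinset]
    rw [h3]
  rw [h2]
  exact norm_sum_le _ _

theorem pf_BL (hRK : M_RK) (hMJ : M_MJ) (hDL : M_DL) (hMQ : D_MQ) (hDY : D_DY) (hOC : D_OC)
    (hRP : D_RP) (hDC : D_DC) (hEF : D_EF) (hDV : Pool.Agent.H29.TC.T_DV) : D_BL := by
  classical
  intro n ε p hn hε hp
  obtain ⟨q, hq, hpq⟩ := hRK p hp
  obtain ⟨Φ, Ψ, C₀, hC₀, hΦ⟩ := hMJ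
  obtain ⟨Ca, hCa, hMQ⟩ := hMQ n p q Φ Ψ C₀ hn hp hq hpq hC₀ hΦ
  obtain ⟨Cb, hCb, hDY⟩ := hDY n q Ψ hn hq hΦ.psi
  obtain ⟨Cl, hCl, hlog⟩ := log_pow n hn (ε / 8) (by positivity)
  obtain ⟨Cd, hCd, hOC⟩ := hOC n (ε / 8) q Ψ hn (by positivity) hq hΦ.psi
  obtain ⟨Cv', hDV⟩ := hDV n (ε / 8) (by positivity)
  obtain ⟨C₇, -, hDL⟩ := hDL n hn
  obtain ⟨Cv, hCv'⟩ : ∃ Cv : ℝ, Cv = max 0 Cv' := ⟨_, rfl⟩
  have hCv : 0 ≤ Cv := by rw [hCv']; exact le_max_left _ _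
  obtain ⟨Ce, hCe⟩ : ∃ Ce : ℝ, Ce = Ca * (Cb + Cb * Cl * Cv * Cd * 9 ^ n) := ⟨_, rfl⟩
  have hCe0 : 0 ≤ Ce := by rw [hCe]; positivity
  refine ⟨max 1 (max (2 * Ce) (4 * Ce ^ 2)), le_max_left _ _, ?_⟩
  intro K _ _ hK l k κ b κ₃ b₃ θ M x₀ y ω ρ G τ ι J η γ c D V hFP hω hρM hCh hκ6 hFM hG hcls hblk
    hspc hD hDT hV hCV hlarge
  have hCe1 : 2 * Ce ≤ max 1 (max (2 * Ce) (4 * Ce ^ 2)) :=
    (le_max_left _ _).trans (le_max_right _ _)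
  have hCe2 : 4 * Ce ^ 2 ≤ max 1 (max (2 * Ce) (4 * Ce ^ 2)) :=
    (le_max_right _ _).trans (le_max_right _ _)
  have hk : k ≠ ⊥ := hFP.lk.k_ne
  have hr0 : k.radical ≠ ⊥ := by
    intro h
    exact hk (le_bot_iff.mp (h ▸ Ideal.le_radical))
  have hκ0 : κ ≠ ⊥ := by
    intro h
    exact hk (le_bot_iff.mp (h ▸ hCh.k_le))
  have hNk1 := one_le_Nf hk
  have hNr1 := one_le_Nf hr0
  have hNκ1 := one_le_Nf hκ0
  have hNl1 := one_le_Nf hFP.lk.l_ne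
  have hG1 : ∀ v, 1 ≤ G v := fun v => (hG v).1
  have hPG1 : 1 ≤ PP G := one_le_PP hG1
  obtain ⟨P, hP⟩ : ∃ P : ℝ, P = Nf K κ * PP G := ⟨_, rfl⟩
  have hP1 : 1 ≤ P := by rw [hP]; exact one_le_mul_of_one_le_of_one_le hNκ1 hPG1
  have hτ1 : ∀ v, 1 ≤ τ v := fun v => (one_le_pow₀ (hG1 v)).trans (hG v).2
  have hPτ1 : 1 ≤ PP τ := one_le_PP hτ1
  obtain ⟨T, hT⟩ : ∃ T : ℝ, T = Nf K k * PP τ := ⟨_, rfl⟩
  have hT1 : 1 ≤ T := by rw [hT]; exact one_le_mul_of_one_le_of_one_le hNk1 hPτ1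
  have hkT : Nf K k ≤ T := by rw [hT]; exact le_mul_of_one_le_right (by linarith) hPτ1
  obtain ⟨r, hr⟩ : ∃ r : ℝ, r = Nf K k.radical := ⟨_, rfl⟩
  have hr1 : 1 ≤ r := by rw [hr]; exact hNr1
  obtain ⟨δ, hδ⟩ : ∃ δ : ℝ, δ = DD M y / Nf K l := ⟨_, rfl⟩
  have hd1 : 1 ≤ dK K := by
    unfold dK
    have h : (1 : ℤ) ≤ |discr K| := Int.one_le_abs (discr_ne_zero K)
    have h2 : ((1 : ℤ) : ℝ) ≤ ((|discr K| : ℤ) : ℝ) := by exact_mod_cast h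
    simpa using h2
  have hδ0 : 0 ≤ δ := by
    rw [hδ]
    unfold DD
    have : (0 : ℝ) ≤ (FractionalIdeal.absNorm M : ℝ) := by
      exact_mod_cast FractionalIdeal.absNorm_nonneg M
    have h2 : 0 < Nf K l := by linarith
    positivity
  rw [← hP, ← hT, ← hr] at hCV
  rw [← hT, ← hδ] at hDT
  rw [← hδ] at hlarge
  rw [← hr, ← hT, ← hP]
  obtain ⟨I, ρ', hIJ, hρ', hspI⟩ := hRP n K hK ι J γ b c G (fun v => by linarith [hG1 v])
    (fun j hj v => (hcls j hj).real v)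
  obtain ⟨A, hA1, hA2, hA3⟩ := hDY K hK l k κ M y ω ρ G hFP.lk.l_ne hk hFP.lk.cop hFP.M_ne hω
    hCh.k_le hCh.le hG1 hρM
  rw [← hδ] at hA1 hA3
  have hFMI : FM k κ θ I η γ := ⟨hFM.nd, fun j hj => hFM.lc j (hIJ hj),
    fun j hj => hFM.fq j (hIJ hj)⟩
  obtain ⟨N, cl, hN, hcl, hcls2⟩ := hDC K l k κ θ M x₀ ρ ι I η γ hFP hCh.k_le hCh.le hκ6 hFMI hρM
  have hmcJ : ∀ j ∈ J, MC (η j) := fun j hj => (hFM.lc j hj).mc
  have hT8 : 0 < T ^ (ε / 8) := by positivity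
  have hT88 : T ^ (ε / 8) * T ^ (ε / 8) = T ^ (ε / 4) := by
    rw [← Real.rpow_add (by linarith)]
    congr 1
    ring
  have hT84 : T ^ (ε / 8) ≤ T ^ (ε / 4) :=
    Real.rpow_le_rpow_of_exponent_le hT1 (by linarith)
  have hA : (A.card : ℝ) ≤ Cb * Cl * T ^ (ε / 8) := by
    have h1 : (1 + Real.log (1 + δ)) ^ n ≤ (1 + Real.log (1 + T)) ^ n := by
      have h2 : 0 ≤ Real.log (1 + δ) := Real.log_nonneg (by linarith)
      have h3 : Real.log (1 + δ) ≤ Real.log (1 + T) :=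
        Real.log_le_log (by linarith) (by linarith)
      exact pow_le_pow_left₀ (by linarith) (by linarith) n
    calc (A.card : ℝ) ≤ Cb * (1 + Real.log (1 + δ)) ^ n := hA1
      _ ≤ Cb * (Cl * T ^ (ε / 8)) :=
          mul_le_mul_of_nonneg_left (h1.trans (hlog _ hT1)) hCb
      _ = _ := by ring
  have hNr : (N : ℝ) ≤ Cv * T ^ (ε / 8) * r := by
    rw [← hr] at hN
    refine hN.trans (mul_le_mul_of_nonneg_right ?_ (by linarith))
    refine (hDV K hK k hk).trans ?_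
    have h1 : Cv' ≤ Cv := by rw [hCv']; exact le_max_right _ _
    have h2 : Nf K k ^ (ε / 8) ≤ T ^ (ε / 8) :=
      Real.rpow_le_rpow (by linarith) hkT (by positivity)
    have h3 : 0 ≤ Nf K k ^ (ε / 8) := by
      have : 0 ≤ Nf K k := by linarith
      positivity
    calc Cv' * Nf K k ^ (ε / 8) ≤ Cv * Nf K k ^ (ε / 8) := mul_le_mul_of_nonneg_right h1 h3
      _ ≤ Cv * T ^ (ε / 8) := mul_le_mul_of_nonneg_left h2 hCv
  have hAN : (A.card : ℝ) * N ≤ Cb * Cl * Cv * r * T ^ (ε / 4) := by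
    calc (A.card : ℝ) * N ≤ (Cb * Cl * T ^ (ε / 8)) * (Cv * T ^ (ε / 8) * r) :=
          mul_le_mul hA hNr (Nat.cast_nonneg _) (by positivity)
      _ = Cb * Cl * Cv * r * (T ^ (ε / 8) * T ^ (ε / 8)) := by ring
      _ = _ := by rw [hT88]
  -- the mean square
  have hsum : ∑ j ∈ J, ‖SQ p (((l * k.radical : Ideal (𝓞 K)) : FI K) * M) y ω ρ
      (cq k (η j) M x₀) (c j)‖ ^ 2 ≤
      ∑ i ∈ I, Ca * (D * P * ‖MP q Ψ (((l * k.radical : Ideal (𝓞 K)) : FI K) * M)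
        ((κ : FI K) * M) y ω ρ (cq k (η i) M x₀) G (c i)‖) := by
    rw [← Finset.sum_fiberwise_of_maps_to (fun j hj => (hρ' j hj).1)]
    refine Finset.sum_le_sum fun i hi => ?_
    rw [hP]
    refine hMQ K hK l k κ M x₀ y ω ρ ι (J.filter fun j => ρ' j = i) η (η i) c (c i) G D hFP hω
      hCh.k_le hCh.le hG1 hρM (hmcJ i (hIJ hi)) (fun j hj => ?_)
      (fun v => (hcls i (hIJ hi)).real v) (fun j hj v => ?_) (fun η₀ c₀ => ?_)
    · rw [Finset.mem_filter] at hj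
      refine ⟨hmcJ j hj.1, ?_⟩
      have h1 := (hρ' j hj.1).2.1
      rw [hj.2] at h1
      exact (((hEF K k hk hFP.lk.big).2 θ κ hFM.nd hCh.k_le hκ6).2.1 (η j) (η i) (γ j) (γ i) κ b
        (hmcJ j hj.1) (hmcJ i (hIJ hi)) (hFM.fq j hj.1) (hFM.fq i (hIJ hi)) le_rfl hCh.k_le
        hCh.b_eq).mp h1
    · rw [Finset.mem_filter] at hj
      refine ⟨(hcls j hj.1).real v, ?_⟩
      have := (hρ' j hj.1).2.2 v
      rw [hj.2] at this
      exact this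
    · refine le_trans ?_ (hspc η₀ c₀)
      exact_mod_cast Finset.card_le_card (Finset.filter_subset_filter _
        (Finset.filter_subset _ _))
  obtain ⟨W, hW⟩ : ∃ W : ℝ, W = T ^ (1 / 2 : ℝ) * P ^ (-(3 / 2) : ℝ) := ⟨_, rfl⟩
  have hW0 : 0 ≤ W := by rw [hW]; positivity
  have hLk : (((l * κ : Ideal (𝓞 K)) : FI K) * M) ≠ 0 := by
    refine mul_ne_zero ?_ hFP.M_ne
    rw [FractionalIdeal.coeIdeal_ne_zero]
    exact mul_ne_zero hFP.lk.l_ne hκ0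
  have hOD : ∀ α ∈ A, ∑ i ∈ I, ‖OQ q Ψ (Dl (((l * κ : Ideal (𝓞 K)) : FI K) * M) y ω α)
      (((l * k.radical : Ideal (𝓞 K)) : FI K) * M) y ω ρ (cq k (η i) M x₀) G (c i)‖ ≤
      (N : ℝ) * (Cd * (δ * (9 ^ n * dK K ^ 2 * r ^ 2 * T ^ (ε / 8) *
        ((I.card : ℝ) ^ (1 / 2 : ℝ) * W + I.card)))) := by
    intro α hα
    have hα0 : ∀ v, 0 < α v := fun v => (hA2 α hα v).1
    obtain ⟨hfin, -, -⟩ := hDL K hK (((l * κ : Ideal (𝓞 K)) : FI K) * M) y ω α hLk hω hα0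
    have h1 : ∀ t ∈ Finset.range N, ∑ i ∈ I, ‖OQ q Ψ
        {δ | δ ∈ Dl (((l * κ : Ideal (𝓞 K)) : FI K) * M) y ω α ∧ cl δ = t}
        (((l * k.radical : Ideal (𝓞 K)) : FI K) * M) y ω ρ (cq k (η i) M x₀) G (c i)‖ ≤
        Cd * (δ * (9 ^ n * dK K ^ 2 * r ^ 2 * T ^ (ε / 8) *
          ((I.card : ℝ) ^ (1 / 2 : ℝ) * W + I.card))) := by
      intro t ht
      obtain ⟨e, k', E, heκ, he, hk', hFT, hCO⟩ := hcls2 t (Finset.mem_range.mp ht)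
      have hsub : {δ | δ ∈ Dl (((l * κ : Ideal (𝓞 K)) : FI K) * M) y ω α ∧ cl δ = t} ⊆
          {δ | δ ≠ 0 ∧ 2 * δ ∈ (((l * κ : Ideal (𝓞 K)) : FI K) * M) ∧ cl δ = t} := by
        rintro x ⟨⟨hx1, hx2⟩, hx3⟩
        refine ⟨?_, hx1, hx3⟩
        rintro rfl
        obtain ⟨v₀⟩ : Nonempty (InfinitePlace K) := inferInstance
        have h2 := (hx2 v₀).1
        unfold wv at h2
        rw [map_zero, zero_mul, zero_mul, norm_zero] at h2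
        linarith [hα0 v₀]
      have h3 := hOC K hK l k κ b κ₃ b₃ e k' M y ω ρ G α τ
        {δ | δ ∈ Dl (((l * κ : Ideal (𝓞 K)) : FI K) * M) y ω α ∧ cl δ = t} ι I γ c
        (fun j => cq k (η j) M x₀) E (9 ^ n) hFP.lk.l_ne hFP.ev hk hFP.M_ne hω hρM hCh heκ
        (FT_mono hFT hsub) hCO (fun x hx v => hx.1.2 v)
        (fun v => ⟨hG1 v, (hA2 α hα v).1, (hA2 α hα v).2.1, (hA2 α hα v).2.2, (hG v).2⟩)
        (fun i hi => hcls i (hIJ hi))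
        (fun i hi j hj => hblk i (hIJ hi) j (hIJ hj)) hspI
        (one_le_pow₀ (by norm_num)) (by rw [← hδ, ← hT]; exact hDT)
      rw [← hδ, ← hr, ← hT, ← hP, ← hW] at h3
      exact h3
    calc ∑ i ∈ I, ‖OQ q Ψ (Dl (((l * κ : Ideal (𝓞 K)) : FI K) * M) y ω α)
            (((l * k.radical : Ideal (𝓞 K)) : FI K) * M) y ω ρ (cq k (η i) M x₀) G (c i)‖ ≤
        ∑ i ∈ I, ∑ t ∈ Finset.range N, ‖OQ q Ψ
          {δ | δ ∈ Dl (((l * κ : Ideal (𝓞 K)) : FI K) * M) y ω α ∧ cl δ = t}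
          (((l * k.radical : Ideal (𝓞 K)) : FI K) * M) y ω ρ (cq k (η i) M x₀) G (c i)‖ :=
          Finset.sum_le_sum fun i _ => OQ_split q Ψ _ hfin _ y ω ρ _ G (c i) N cl hcl
      _ = ∑ t ∈ Finset.range N, ∑ i ∈ I, ‖OQ q Ψ
          {δ | δ ∈ Dl (((l * κ : Ideal (𝓞 K)) : FI K) * M) y ω α ∧ cl δ = t}
          (((l * k.radical : Ideal (𝓞 K)) : FI K) * M) y ω ρ (cq k (η i) M x₀) G (c i)‖ :=
          Finset.sum_comm
      _ ≤ _ := by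
          refine (Finset.sum_le_sum h1).trans ?_
          rw [Finset.sum_const, nsmul_eq_mul, Finset.card_range]
  have hMM : ∑ i ∈ I, ‖MP q Ψ (((l * k.radical : Ideal (𝓞 K)) : FI K) * M)
        ((κ : FI K) * M) y ω ρ (cq k (η i) M x₀) G (c i)‖ ≤ (I.card : ℝ) * (Cb * (1 + δ)) +
      ((A.card : ℝ) * N) * (Cd * (δ * (9 ^ n * r ^ 2 * dK K ^ 2 * T ^ (ε / 4) *
        ((I.card : ℝ) ^ (1 / 2 : ℝ) * W + I.card)))) := by
    calc ∑ i ∈ I, ‖MP q Ψ (((l * k.radical : Ideal (𝓞 K)) : FI K) * M)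
            ((κ : FI K) * M) y ω ρ (cq k (η i) M x₀) G (c i)‖ ≤
        ∑ i ∈ I, (Cb * (1 + δ) + ∑ α ∈ A,
          ‖OQ q Ψ (Dl (((l * κ : Ideal (𝓞 K)) : FI K) * M) y ω α)
            (((l * k.radical : Ideal (𝓞 K)) : FI K) * M) y ω ρ (cq k (η i) M x₀) G (c i)‖) :=
          Finset.sum_le_sum fun i hi => hA3 (cq k (η i) M x₀) (c i)
            (fun x _ => norm_cq_le (hmcJ i (hIJ hi)) M x₀ x)
      _ = (I.card : ℝ) * (Cb * (1 + δ)) + ∑ α ∈ A, ∑ i ∈ I,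
          ‖OQ q Ψ (Dl (((l * κ : Ideal (𝓞 K)) : FI K) * M) y ω α)
            (((l * k.radical : Ideal (𝓞 K)) : FI K) * M) y ω ρ (cq k (η i) M x₀) G (c i)‖ := by
          rw [Finset.sum_add_distrib, Finset.sum_const, nsmul_eq_mul, Finset.sum_comm]
      _ ≤ (I.card : ℝ) * (Cb * (1 + δ)) + (A.card : ℝ) *
          ((N : ℝ) * (Cd * (δ * (9 ^ n * dK K ^ 2 * r ^ 2 * T ^ (ε / 8) *
            ((I.card : ℝ) ^ (1 / 2 : ℝ) * W + I.card))))) := by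
          refine add_le_add le_rfl ?_
          refine (Finset.sum_le_sum hOD).trans ?_
          rw [Finset.sum_const, nsmul_eq_mul]
      _ ≤ _ := by
          refine add_le_add le_rfl ?_
          have h0 : 0 ≤ (I.card : ℝ) ^ (1 / 2 : ℝ) * W + I.card := by positivity
          have h1 : (A.card : ℝ) * ((N : ℝ) * (Cd * (δ * (9 ^ n * dK K ^ 2 * r ^ 2 *
              T ^ (ε / 8) * ((I.card : ℝ) ^ (1 / 2 : ℝ) * W + I.card))))) =
              ((A.card : ℝ) * N) * (Cd * (δ * (9 ^ n * r ^ 2 * dK K ^ 2 * T ^ (ε / 8) *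
              ((I.card : ℝ) ^ (1 / 2 : ℝ) * W + I.card)))) := by ring
          rw [h1]
          have hd0 : 0 ≤ dK K := by linarith
          gcongr
  have hmain : ((J.card : ℝ) * V ^ 2) * (1 + δ) ≤
      Ca * (D * P * ((I.card : ℝ) * (Cb * (1 + δ)) +
      ((A.card : ℝ) * N) * (Cd * (δ * (9 ^ n * r ^ 2 * dK K ^ 2 * T ^ (ε / 4) *
        ((I.card : ℝ) ^ (1 / 2 : ℝ) * W + I.card)))))) := by
    calc ((J.card : ℝ) * V ^ 2) * (1 + δ) = ∑ _j ∈ J, V ^ 2 * (1 + δ) := by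
          rw [Finset.sum_const, nsmul_eq_mul]
          ring
      _ ≤ ∑ j ∈ J, ‖SQ p (((l * k.radical : Ideal (𝓞 K)) : FI K) * M) y ω ρ
          (cq k (η j) M x₀) (c j)‖ ^ 2 := Finset.sum_le_sum hlarge
      _ ≤ _ := hsum
      _ = Ca * (D * P * ∑ i ∈ I, ‖MP q Ψ (((l * k.radical : Ideal (𝓞 K)) : FI K) * M)
            ((κ : FI K) * M) y ω ρ (cq k (η i) M x₀) G (c i)‖) := by
          rw [Finset.mul_sum, Finset.mul_sum]
      _ ≤ _ := by gcongr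
  have hRM : (I.card : ℝ) ≤ (J.card : ℝ) := by exact_mod_cast Finset.card_le_card hIJ
  have hcol := collect (M := (J.card : ℝ)) (Cn := 9 ^ n * r ^ 2)
    (W := W) (Nat.cast_nonneg _) (Nat.cast_nonneg _)
    hRM hP1 hD hδ0 hd1 hT1 hε hCa hCb (by positivity) hCd (by positivity)
    hAN hW0 hmain
  have hcol2 : (J.card : ℝ) * V ^ 2 ≤ Ce * ((D * dK K ^ 2 * r ^ 3 * T ^ ε) * P) *
      ((J.card : ℝ) + (J.card : ℝ) ^ (1 / 2 : ℝ) * (T ^ (1 / 2 : ℝ) * P ^ (-(3 / 2) : ℝ))) := by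
    rw [← hW]
    refine hcol.trans (mul_le_mul_of_nonneg_right ?_ (by positivity))
    have h1 : Cb + Cb * Cl * Cv * r * Cd * (9 ^ n * r ^ 2) ≤
        (Cb + Cb * Cl * Cv * Cd * 9 ^ n) * r ^ 3 := by
      have h2 : 1 ≤ r ^ 3 := one_le_pow₀ hr1
      have h3 : Cb ≤ Cb * r ^ 3 := le_mul_of_one_le_right hCb h2
      calc Cb + Cb * Cl * Cv * r * Cd * (9 ^ n * r ^ 2) ≤
          Cb * r ^ 3 + Cb * Cl * Cv * r * Cd * (9 ^ n * r ^ 2) := by linarith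
        _ = _ := by ring
    calc Ca * (Cb + Cb * Cl * Cv * r * Cd * (9 ^ n * r ^ 2)) * (D * dK K ^ 2 * T ^ ε * P) ≤
        Ca * ((Cb + Cb * Cl * Cv * Cd * 9 ^ n) * r ^ 3) * (D * dK K ^ 2 * T ^ ε * P) := by
          gcongr
      _ = _ := by rw [hCe]; ring
  have hE0 : 0 ≤ D * dK K ^ 2 * r ^ 3 * T ^ ε := by positivity
  have hfin := absorb (Nat.cast_nonneg _) hV (by linarith : (0 : ℝ) ≤ T)
    (by linarith : 0 < P)
    (le_trans (mul_le_mul_of_nonneg_right hCe1 (by positivity)) hCV) hcol2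
  refine hfin.trans (mul_le_mul_of_nonneg_right hCe2 (by positivity))

end Pool.Agent.H19.DM.BL
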