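import Pool.Agent.H19.DM.RES

set_option autoImplicit false

/-!
Modules LAW, NHU, NHF: the new vertex.
-/

set_option linter.unusedSectionVars false

namespace Pool.Agent.H19.DM

open Finset Pool.Agent.H71.DM

section

variable {V : Type} [Fintype V] [DecidableEq V] {I : Type} [Fintype I] [DecidableEq I] {j L : ℕ}

theorem nq_prob {q : I → Seed V → ℝ} {u : Finset V → V → ℝ} (hq : ∀ i, IsProb (q i))
    (hu : ∀ c, IsProb (u c)) (o : Option ((Fin j → Fin L) × I)) : IsProb (nq q u o) := by
  cases o with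
  | none => exact prodW_prob hu
  | some ri => exact hq ri.2

end

/-- module LAW -/
theorem law (hO : OptionStmt) (hM : MarginalStmt) : LawStmt := by
  intro V _ _ R j L I _ _ q hq W u hu g
  rw [hO ((Fin j → Fin L) × I) (Seed V) (nq q u) (nq_prob hq hu)]
  refine ex_congr fun x _ => ?_
  exact hM (Finset V) V u hu (nbase R W x) (g x)

section

variable {V : Type} [Fintype V] [DecidableEq V] {I : Type} [Fintype I] [DecidableEq I] {j L : ℕ}

theorem depOn_some {E : Finset ((Fin j → Fin L) × I)}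
    {s : (Option ((Fin j → Fin L) × I) → Seed V) → V}
    (hs : DepOn (E.map Function.Embedding.some) s) (hV : Nonempty V) :
    ∃ s' : ((Fin j → Fin L) × I → Seed V) → V, DepOn E s' ∧ ∀ w, s w = s' (old w) := by
  obtain ⟨v0⟩ := hV
  refine ⟨fun x => s (fun o => o.elim (fun _ => v0) x), ?_, ?_⟩
  · intro x y hxy
    refine hs _ _ fun i hi => ?_
    rw [mem_map] at hi
    obtain ⟨a, ha, rfl⟩ := hi
    exact hxy a ha
  · intro w
    refine hs _ _ fun i hi => ?_
    rw [mem_map] at hi
    obtain ⟨a, ha, rfl⟩ := hi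
    rfl

theorem nonempty_of_prob {u : V → ℝ} (h : IsProb u) : Nonempty V := by
  by_contra hne
  rw [not_nonempty_iff] at hne
  have := h.2
  rw [Finset.univ_eq_empty, Finset.sum_empty] at this
  exact zero_ne_one this

end

/-- module NHU -/
theorem nhu (hLaw : LawStmt) (hRes : ResampleStmt) : NewHitUDStmt := by
  intro V _ _ adj R j L I _ _ q W u T' ε E Z WE s hq hu hε hZ hWE hhit hs
  obtain ⟨s', hs', hss⟩ := depOn_some hs (nonempty_of_prob (hu ∅))
  set Q : (Fin j → Fin L) × I → Seed V → ℝ := fun ri => q ri.2 with hQ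
  have hQp : ∀ i, IsProb (Q i) := fun i => hq i.2
  have hw := prodW_prob hQp
  set P : ((Fin j → Fin L) × I → Seed V) → V → Prop := fun x a =>
    a ∈ Z x ∧ s' x ∈ T' ∧ (∀ y ∈ WE x, adj (s' x) y) ∧ ¬ adj a (s' x) with hP
  have h1 : pr (prodW (nq q u)) (fun w => nvx R W w ∈ Z (old w) ∧ s w ∈ T' ∧
      (∀ y ∈ WE (old w), adj (s w) y) ∧ ¬ adj (nvx R W w) (s w)) =
      ex (prodW Q) (fun x => pr (u (nbase R W x)) (P x)) := by
    refine Eq.trans ?_ (hLaw V R j L I q hq W u hu (fun x a => ind (P x a)))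
    unfold pr
    refine ex_congr fun w _ => ?_
    simp only [hP, hss]
  rw [h1, ← hRes _ _ Q hQp E]
  refine ex_le hw fun x _ => ?_
  have h2 : ex (prodW Q) (fun y => pr (u (nbase R W (mix E x y))) (P (mix E x y))) =
      pr (mean Q (nbase R W) u E x) (P x) := by
    rw [pr_mean]
    refine ex_congr fun y _ => ?_
    have h3 : P (mix E x y) = P x := by
      simp only [hP]
      rw [hZ.mix, hs'.mix, hWE.mix]
    rw [h3]
  rw [h2]
  have hmp := mean_prob hQp (nbase R W) hu E x
  by_cases hc : s' x ∈ T' ∧ ∀ y ∈ WE x, adj (s' x) y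
  · refine le_trans (pr_mono' hmp.1 fun a ha => ?_) (hhit x (s' x) hc.1 hc.2)
    exact ⟨ha.1, ha.2.2.2⟩
  · have h4 : pr (mean Q (nbase R W) u E x) (P x) ≤
        pr (mean Q (nbase R W) u E x) (fun _ => False) :=
      pr_mono' hmp.1 fun a ha => hc ⟨ha.2.1, ha.2.2.1⟩
    rw [pr_false] at h4
    exact h4.trans hε

/-- module NHF -/
theorem nhf (hLaw : LawStmt) (hRes : ResampleStmt) : NewHitFullStmt := by
  intro V _ _ adj R j L I _ _ q W A u T' γ τ ζ h E s hasym hq hu hγ hτ hζ hhit hs
  obtain ⟨s', hs', hss⟩ := depOn_some hs (nonempty_of_prob (hu ∅))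
  set Q : (Fin j → Fin L) × I → Seed V → ℝ := fun ri => q ri.2 with hQ
  have hQp : ∀ i, IsProb (Q i) := fun i => hq i.2
  have hw := prodW_prob hQp
  set Bt : ((Fin j → Fin L) × I → Seed V) → Prop := fun x =>
    ∀ y ∈ atoms R q u ζ W E x, adj (s' x) y with hBt
  set Gd : ((Fin j → Fin L) × I → Seed V) → Prop := fun x =>
    ∀ s ∈ T', 1 - γ ≤ pr (u (nbase R W x)) (fun a => adj a s ∨ a = s) with hGd
  set P : ((Fin j → Fin L) × I → Seed V) → V → Prop := fun x a =>
    A (cpy x h) ∧ s' x ∈ T' ∧ Bt x ∧ ¬ adj a (s' x) with hP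
  have h1 : pr (prodW (nq q u)) (fun w => A (cpy (old w) h) ∧ s w ∈ T' ∧
      (∀ y ∈ atoms R q u ζ W E (old w), adj (s w) y) ∧ ¬ adj (nvx R W w) (s w)) =
      ex (prodW Q) (fun x => pr (u (nbase R W x)) (P x)) := by
    refine Eq.trans ?_ (hLaw V R j L I q hq W u hu (fun x a => ind (P x a)))
    unfold pr
    refine ex_congr fun w _ => ?_
    simp only [hP, hBt, hss]
  rw [h1]
  have h2 : ∀ x, pr (u (nbase R W x)) (P x) ≤
      γ * ind (A (cpy x h)) + ind (¬ Gd x) + ind (Bt x) * u (nbase R W x) (s' x) := by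
    intro x
    have hux := hu (nbase R W x)
    have hn1 : 0 ≤ γ * ind (A (cpy x h)) := mul_nonneg hγ (ind_nonneg _)
    have hn2 : 0 ≤ ind (Bt x) * u (nbase R W x) (s' x) := mul_nonneg (ind_nonneg _) (hux.1 _)
    by_cases hG : Gd x
    · rw [ind_false (not_not.2 hG)]
      by_cases hc : A (cpy x h) ∧ s' x ∈ T' ∧ Bt x
      · rw [ind_true hc.1, ind_true hc.2.2]
        have h3 := hG (s' x) hc.2.1
        have h4 : pr (u (nbase R W x)) (P x) ≤
            pr (u (nbase R W x)) (fun a => ¬ (adj a (s' x) ∨ a = s' x)) +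
              pr (u (nbase R W x)) (fun a => a = s' x) := by
          refine pr_le_add hux.1 fun a _ ha => ?_
          by_cases hax : a = s' x
          · exact Or.inr hax
          · refine Or.inl ?_
            rintro (h5 | h5)
            · exact ha.2.2.2 h5
            · exact hax h5
        rw [pr_not hux, pr_eq] at h4
        linarith
      · have h4 : pr (u (nbase R W x)) (P x) ≤ pr (u (nbase R W x)) (fun _ => False) :=
          pr_mono' hux.1 fun a ha => hc ⟨ha.1, ha.2.1, ha.2.2.1⟩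
        rw [pr_false] at h4
        linarith
    · rw [ind_true hG]
      have := pr_le_one hux (P x)
      linarith
  refine (ex_mono' hw.1 h2).trans ?_
  rw [ex_add, ex_add, ex_mul_left]
  have e1 : ex (prodW Q) (fun x => ind (A (cpy x h))) = pr (prodW q) A := by
    have h5 := ex_block (q := q) (q' := Q) hQp (e := fun i => (h, i))
      (fun i i' hii => (Prod.mk.inj hii).2) (fun i => rfl) (fun y => ind (A y))
    exact h5
  have e2 : ex (prodW Q) (fun x => ind (¬ Gd x)) ≤ τ := by
    have h5 := pr_not hw Gd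
    have h6 : 1 - τ ≤ pr (prodW Q) Gd := hhit
    have h7 : ex (prodW Q) (fun x => ind (¬ Gd x)) = pr (prodW Q) (fun x => ¬ Gd x) := rfl
    rw [h7, h5]
    linarith
  have e3 : ex (prodW Q) (fun x => ind (Bt x) * u (nbase R W x) (s' x)) ≤ ζ := by
    rw [← hRes _ _ Q hQp E]
    refine ex_le hw fun x _ => ?_
    have hatoms : DepOn E (atoms R q u ζ W E) := by
      intro x y hxy
      unfold atoms
      rw [depOn_mean Q (nbase R W) u E x y hxy]
    have h5 : ex (prodW Q) (fun y => ind (Bt (mix E x y)) *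
        u (nbase R W (mix E x y)) (s' (mix E x y))) =
        ind (Bt x) * mean Q (nbase R W) u E x (s' x) := by
      unfold mean
      rw [← ex_mul_left]
      refine ex_congr fun y _ => ?_
      simp only [hBt]
      rw [hatoms.mix, hs'.mix]
    rw [h5]
    by_cases hb : Bt x
    · rw [ind_true hb, one_mul]
      by_contra hlt
      push Not at hlt
      have h6 : s' x ∈ atoms R q u ζ W E x := by
        unfold atoms
        rw [mem_filter]
        exact ⟨mem_univ _, hlt.le⟩
      exact hasym _ _ (hb _ h6) (hb _ h6)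
    · rw [ind_false hb, zero_mul]
      exact hζ.le
  rw [e1]
  linarith

end Pool.Agent.H19.DM
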