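import Pool.Agent.H71.DM.Targets
import Pool.Agent.H71.DM.Basic

set_option autoImplicit false

/-!
Module LEV: the level lemma.
-/

namespace Pool.Agent.H19.DM

open Finset Pool.Agent.H71.DM

/-- module LEV -/
theorem lev (hcls : ClassStmt) : LevelStmt := by
  intro G B T H h γ τ ε hT hγ hτ hε hno
  by_contra hcon
  have hF : NoFull G B T γ τ := by
    intro S T' u h1 h2 h3 h4 h5
    rw [ev_not]
    intro h6
    exact hcon ⟨S, T', u, h1, h2, h3, h4, h5, Or.inl h6⟩
  have hU : NoUD G B T γ τ ε := by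
    intro S T' u h1 h2 h3 h4 h5 K'
    rw [ev_not]
    intro h6
    exact hcon ⟨S, T', u, h1, h2, h3, h4, h5, Or.inr ⟨K', h6⟩⟩
  obtain ⟨θ, hθ, hθ1, hstep⟩ := hcls G B T γ τ ε hγ hτ hε hF hU
  have hind : ∀ p : ℕ, ∃ κ : ℝ, 0 < κ ∧ ∀ δ : ℝ, 0 < δ → ∀ g : ℕ, StateEx G T H θ κ δ p g := by
    intro p
    induction p with
    | zero =>
      refine ⟨1, one_pos, fun δ hδ g => ?_⟩
      refine ⟨fun _ i => i.elim0, fun _ => T, fun i => i.elim0, fun _ i => i.elim0,
        fun _ => hT, fun _ => Sub.refl T, fun i => i.elim0, fun i => i.elim0, ?_, ?_⟩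
      · exact Filter.Eventually.of_forall fun _ i => i.elim0
      · refine Filter.Eventually.of_forall fun n t => ?_
        have h1 : pr (prodW (fun i : Fin 0 => (i.elim0 : G.V n → ℝ))) (Pat (G.adj n) H 0) = 1 := by
          unfold pr ex
          rw [Fintype.sum_unique]
          have h2 : Pat (G.adj n) H 0 (default : Fin 0 → G.V n) := fun a => a.elim0
          show _ * ind (Pat (G.adj n) H 0 default) = 1
          rw [ind_true h2]
          unfold prodW
          simp
        have h3 : (prodW (fun i : Fin 0 => (i.elim0 : G.V n → ℝ)) : (Fin 0 → G.V n) → ℝ) =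
            prodW (fun i : Fin 0 => (Fin.elim0 i : Fin g → G.V n → ℝ) (t i)) := by
          congr 1
          funext i
          exact i.elim0
        rw [← h3, h1]
    | succ p ih =>
      obtain ⟨κ, hκ, hst⟩ := ih
      exact hstep H p κ hκ hst
  obtain ⟨κ, hκ, hst⟩ := hind h
  obtain ⟨ν, S, f, h1, h2, h3, h4, h5, h6, h7⟩ := hst 1 one_pos 1
  obtain ⟨n, h8, h9⟩ := (h7.and hno).exists
  obtain ⟨x, -, hx⟩ := exists_of_pr_pos (hκ.trans_le (h8 fun _ => 0))
  exact h9 x hx

end Pool.Agent.H19.DM
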