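import Pool.Agent.H23.DM.TargetsA
import Pool.Agent.H19.TMB.LT
import Pool.Agent.H31.SX.TargetsD

/-!
# The twelfth moment in the whole conductor: row LT (the twelfth moment of a class)
-/

set_option autoImplicit false

open NumberField NumberField.InfinitePlace NumberField.Units
  NumberField.Units.dirichletUnitTheorem MeasureTheory Set Filter Complex
open scoped nonZeroDivisors ENNReal

namespace Pool.Agent.H19.DM.LT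

open Pool.Agent.H25.HK Pool.Agent.H23.LB Pool.Agent.H23.LC
open Pool.Agent.H31.SW (PP dK)
open Pool.Agent.H29.DW (cpar Ci Wt one_le_Ci V_AE V_GH PrG)
open Pool.Agent.H29.TC (LC)
open Pool.Agent.H31.SX (LK)
open Pool.Agent.H27.TM (Cls Sp1)
open Pool.Agent.H23.DM

section

variable {K : Type} [Field K] [NumberField K]

private theorem one_le_Nf {f : Ideal (𝓞 K)} (hf : f ≠ ⊥) : 1 ≤ Nf K f := by
  unfold Nf
  have h : Ideal.absNorm f ≠ 0 := fun h => hf (Ideal.absNorm_eq_zero_iff.1 h)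
  exact_mod_cast Nat.one_le_iff_ne_zero.2 h

private theorem one_le_discr : 1 ≤ |(discr K : ℝ)| := by
  have h : (1 : ℤ) ≤ |discr K| := Int.one_le_abs (discr_ne_zero K)
  have h2 : ((1 : ℤ) : ℝ) ≤ ((|discr K| : ℤ) : ℝ) := by exact_mod_cast h
  simpa using h2

end

theorem pf_LT (hBP : D_BP) (hBQ : D_BQ) (hSP : D_SP) (hSG : Pool.Agent.H31.SX.X_SG)
    (hAE : Pool.Agent.H29.DW.V_AE) (hGH : Pool.Agent.H29.DW.V_GH)
    (hHR : Pool.Agent.H29.TC.T_HR) (hDS : Pool.Agent.H25.HK.T_DS)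
    (hDC : Pool.Agent.H23.LC.U_DC) (hGE : Pool.Agent.H23.LC.U_GE) : D_LT := by
  classical
  intro n hn0
  obtain ⟨B₁, hB₁, hP⟩ := hBP n hn0
  obtain ⟨B₂, hB₂, hQ⟩ := hBQ n hn0
  obtain ⟨C₅, hC₅, hS⟩ := hSP n hn0
  obtain ⟨C₀, hC₀, hA⟩ := hAE n
  obtain ⟨C₃, hC₃, hG⟩ := hGH n
  obtain ⟨C₄, hR⟩ := hHR n 1 one_pos
  refine ⟨18 + 4 * (B₁ + B₂), by positivity, fun ε hε hε1 => ?_⟩
  obtain ⟨κ, hκ⟩ : ∃ κ : ℝ, κ = ε / 24 := ⟨_, rfl⟩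
  have hκ0 : 0 < κ := by rw [hκ]; positivity
  have hκ1 : κ ≤ 1 := by rw [hκ]; linarith
  obtain ⟨C₁, hC₁, hP⟩ := hP ε κ hε hε1 hκ0 hκ.le
  obtain ⟨C₂, hC₂, hQ⟩ := hQ ε κ hε hε1 hκ0 hκ.le
  obtain ⟨B₀, hB₀d⟩ : ∃ B₀ : ℝ, B₀ = C₀ * κ⁻¹ * max 1 C₃ := ⟨_, rfl⟩
  have hB₀ : 0 ≤ B₀ := by
    rw [hB₀d]
    have := le_max_left 1 C₃
    positivity
  obtain ⟨C₆, hC₆⟩ : ∃ C₆ : ℝ, C₆ = max 0 C₄ := ⟨_, rfl⟩
  have hC₆0 : 0 ≤ C₆ := by rw [hC₆]; exact le_max_left _ _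
  refine ⟨2 ^ 11 * (C₁ * (B₀ * C₆) ^ 12 * C₅ ^ B₁ + C₂ * (B₀ * C₆) ^ 12 * C₅ ^ B₂), ?_, ?_⟩
  · have : 0 ≤ C₅ := by linarith
    positivity
  intro K _ _ hn l k hlk Y L hL τ S hτ hprim hcls hsp
  have hf0 : l * k ≠ ⊥ := mul_ne_zero hlk.l_ne hlk.k_ne
  have hr0 : k.radical ≠ ⊥ := by
    intro h
    exact hlk.k_ne (le_bot_iff.mp (h ▸ Ideal.le_radical))
  have hd1 : 1 ≤ dK K := one_le_discr (K := K)
  have hNl1 := one_le_Nf hlk.l_ne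
  have hNr1 := one_le_Nf hr0
  obtain ⟨N, hN⟩ : ∃ N : ℝ, N = Nf K l * Nf K k.radical := ⟨_, rfl⟩
  have hN1 : 1 ≤ N := by
    rw [hN]
    exact one_le_mul_of_one_le_of_one_le hNl1 hNr1
  have hlN : Nf K l ≤ N := by
    rw [hN]
    exact le_mul_of_one_le_right (by linarith) hNr1
  obtain ⟨P, hPd⟩ : ∃ P : ℝ, P = (Nf K k * PP τ) ^ (2 + ε) := ⟨_, rfl⟩
  have hPP : 0 ≤ P := by
    rw [hPd]
    apply Real.rpow_nonneg
    refine mul_nonneg (by have := one_le_Nf hlk.k_ne; linarith) ?_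
    unfold PP
    exact Finset.prod_nonneg fun v _ => pow_nonneg (by linarith [hτ v]) _
  -- the local components
  have hη : ∀ χ : HG K (l * k), ∃ η : 𝓞 K ⧸ k → ℂ, PrG k χ → LC k η ∧
      ∀ (M : FI K) (x₀ : K), M ≠ 0 → Pool.Agent.H29.TC.Gn (l * k) M x₀ → ∃ c : K → ℂ,
        (∀ x ∈ M, ‖c x‖ ≤ 1) ∧ (∀ x ∈ M, ∀ t ∈ (l : FI K) * M, c (x + t) = c x) ∧
        ∀ x ∈ M, cg χ M x = c x * Pool.Agent.H29.TC.cq k η M x₀ x := by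
    intro χ
    by_cases hχ : PrG k χ
    · obtain ⟨η, h1⟩ := hSG K l k hlk χ hχ
      exact ⟨η, fun _ => h1⟩
    · exact ⟨fun _ => 0, fun h => absurd h hχ⟩
  choose η hη using hη
  have hLoC : LoC K l k η := fun χ hχ => hη χ hχ
  have key : ∀ q : HG K (l * k) × ℝ, ∃ v v' : ℝ → ℂ,
      Wt κ (Real.sqrt (|(discr K : ℝ)| * Nf K (l * k) * Ci q.1.k q.1.ν q.2)) B₀ v ∧
      Wt κ (Real.sqrt (|(discr K : ℝ)| * Nf K (l * k) * Ci q.1.k q.1.ν q.2)) B₀ v' ∧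
      L q.1 (1 / 2 + q.2 * I) =
        ∑' J : NZI K, q.1.ψ J.1 * v (Ideal.absNorm J.1) *
          (Ideal.absNorm J.1 : ℂ) ^ (-(q.2 * I : ℂ)) +
        ∑' J : NZI K, cd Y q.1 J.1 * v' (Ideal.absNorm J.1) *
          (Ideal.absNorm J.1 : ℂ) ^ (q.2 * I : ℂ) := by
    intro q
    rw [hB₀d]
    exact Pool.Agent.H19.TMB.LT.split n κ C₀ C₃ hC₀ hκ0 hκ1 hA hG hDS hDC hGE hn hf0 Y q.1
      (L q.1) (hL q.1) q.2
  choose v v' hv hv' hsplit using key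
  obtain ⟨D, hD⟩ : ∃ D : ℝ, D = C₅ * (dK K * N) ^ 3 := ⟨_, rfl⟩
  have hdN : 1 ≤ dK K * N := one_le_mul_of_one_le_of_one_le hd1 hN1
  have hD1 : 1 ≤ D := by
    rw [hD]
    exact one_le_mul_of_one_le_of_one_le hC₅ (one_le_pow₀ hdN)
  have hspc : SpE S (fun q => η q.1) Pool.Agent.H27.TM.cq D := by
    have h1 := hS K hn l k hlk η hLoC S hsp hprim
    intro η₀ c₀
    refine (h1 η₀ c₀).trans ?_
    rw [hD]
    have h2 : (dK K * Nf K l) ^ 3 ≤ (dK K * N) ^ 3 := by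
      apply pow_le_pow_left₀ (by positivity)
      exact mul_le_mul_of_nonneg_left hlN (by linarith)
    exact mul_le_mul_of_nonneg_left h2 (by linarith)
  have hp1 := hP K hn l k hlk η hLoC τ S B₀ D v hτ hprim hcls hspc hD1 hB₀ (fun q _ => hv q)
  have hq1 := hQ K hn l k hlk η hLoC Y τ S B₀ D v' hτ hprim hcls hspc hD1 hB₀ (fun q _ => hv' q)
  have hreg : 0 < regulator K := regulator_pos K
  have hh0 : 0 ≤ (classNumber K : ℝ) * regulator K := by positivity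
  have hR' : (classNumber K : ℝ) * regulator K ≤ C₆ * dK K ^ (3 / 2 : ℝ) := by
    refine (hR K hn).trans ?_
    have e1 : (1 / 2 + 1 : ℝ) = 3 / 2 := by norm_num
    rw [e1, hC₆]
    unfold dK
    gcongr
    exact le_max_right _ _
  rw [← hN, ← hPd, hD] at hp1 hq1
  rw [← hN, ← hPd]
  have hp2 := hp1.trans (Pool.Agent.H19.TMB.LT.num (B₂ := 18 + 4 * (B₁ + B₂)) hd1 hN1 hh0 hC₁
    hC₆0 hC₅ hB₀ hB₁ hPP (by linarith) hR')
  have hq2 := hq1.trans (Pool.Agent.H19.TMB.LT.num (B₂ := 18 + 4 * (B₁ + B₂)) hd1 hN1 hh0 hC₂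
    hC₆0 hC₅ hB₀ hB₂ hPP (by linarith) hR')
  have hsum : ∑ q ∈ S, ‖L q.1 (1 / 2 + q.2 * I)‖ ^ 12 ≤
      2 ^ 11 * (∑ q ∈ S, ‖∑' J : NZI K, q.1.ψ J.1 * v q (Ideal.absNorm J.1) *
          (Ideal.absNorm J.1 : ℂ) ^ (-(q.2 * I : ℂ))‖ ^ 12 +
        ∑ q ∈ S, ‖∑' J : NZI K, cd Y q.1 J.1 * v' q (Ideal.absNorm J.1) *
          (Ideal.absNorm J.1 : ℂ) ^ (q.2 * I : ℂ)‖ ^ 12) := by
    rw [← Finset.sum_add_distrib, Finset.mul_sum]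
    refine Finset.sum_le_sum fun q _ => ?_
    rw [hsplit q]
    refine (pow_le_pow_left₀ (norm_nonneg _) (norm_add_le _ _) 12).trans ?_
    exact add_pow_le (norm_nonneg _) (norm_nonneg _) 12
  calc ∑ q ∈ S, ‖L q.1 (1 / 2 + q.2 * I)‖ ^ 12 ≤ _ := hsum
    _ ≤ 2 ^ 11 * (C₁ * (B₀ * C₆) ^ 12 * C₅ ^ B₁ *
          ((dK K * N) ^ (18 + 4 * (B₁ + B₂)) * P) +
        C₂ * (B₀ * C₆) ^ 12 * C₅ ^ B₂ *
          ((dK K * N) ^ (18 + 4 * (B₁ + B₂)) * P)) :=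
        mul_le_mul_of_nonneg_left (add_le_add hp2 hq2) (by positivity)
    _ = _ := by ring

end Pool.Agent.H19.DM.LT
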