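import Pool.Agent.H23.DM.TargetsG

/-!
# The twelfth moment in the whole conductor: row OC (the sums over the differences of a class)
-/

set_option autoImplicit false

open NumberField NumberField.InfinitePlace

namespace Pool.Agent.H19.DM.OC

open Pool.Agent.H27.TM Pool.Agent.H23.DM Pool.Agent.H23.LB

theorem pf_OC (hP1 : D_P1) (hP2 : D_P2) : D_OC := by
  intro n ε q Ψ hn hε hq hΨ
  obtain ⟨N, hN, h2⟩ := hP2 n ε hn hε
  obtain ⟨C₁, C, hC₁, hC, h1⟩ := hP1 n q Ψ N hn hq hΨ hN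
  obtain ⟨C₂, hC₂, h3⟩ := h2 C₁ hC₁
  refine ⟨C * C₂, mul_nonneg hC hC₂, ?_⟩
  intro K _ _ hK l k κ b κ₃ b₃ e k' M y ω ρ G α τ A ι I γ c qq E D hl hl2 hk hM hω hρ hCh heκ
    hFT hCO hA hG hcls hcc hS hD hDD
  have hk' : k' ≠ ⊥ := by
    intro h
    apply hk
    rw [hFT.ke, h, Ideal.mul_bot]
  have hNk' : 0 < Nf K k' := by
    unfold Nf
    have h : Ideal.absNorm k' ≠ 0 := fun h => hk' (Ideal.absNorm_eq_zero_iff.1 h)
    exact_mod_cast Nat.pos_of_ne_zero h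
  have hs : Real.sqrt (Nf K k') ≠ 0 := (Real.sqrt_pos.mpr hNk').ne'
  refine (h1 K hK l k e k' M y ω ρ G α A ι I qq E c _ hl hl2 hk hM hω hρ
    (fun v => ⟨(hG v).1, (hG v).2.1, (hG v).2.2.1, (hG v).2.2.2.1⟩) hFT
    (fun i hi ν hν => hCO.norm i hi ν hν) hA (fun i hi v => (hcls i hi).real v)
    (fun Q bb hQ hb => h3 K hK l k κ b κ₃ b₃ e k' M y ω G α τ A ι I γ c E D Q bb hl hk hM hω hCh
      hFT.ke heκ hCO (fun δ hδ => ⟨(hFT.mem δ hδ).2, hA δ hδ⟩) hG hcls hcc hS hD hDD hQ hb)).trans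
      (le_of_eq ?_)
  field_simp

end Pool.Agent.H19.DM.OC
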