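import Pool.Agent.H23.DM.TargetsI
import Pool.Agent.H97.SWX.CF0

/-!
# The twelfth moment in the whole conductor: row PI
-/

set_option autoImplicit false

open NumberField NumberField.InfinitePlace NumberField.Units
  NumberField.Units.dirichletUnitTheorem MeasureTheory Set Filter Complex
open scoped nonZeroDivisors ENNReal

namespace Pool.Agent.H19.DM.PI

open Pool.Agent.H25.HK Pool.Agent.H23.LB Pool.Agent.H23.LC
open Pool.Agent.H29.TC (Gn)
open Pool.Agent.H26.THC Pool.Agent.H26.GLA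
open Pool.Agent.H97.SWX.CF
open Pool.Agent.H23.DM

variable {K : Type} [Field K] [NumberField K]

omit [NumberField K] in
theorem coe_mem_iff (I : Ideal (𝓞 K)) (x : 𝓞 K) : (x : K) ∈ (I : FI K) ↔ x ∈ I := by
  rw [FractionalIdeal.mem_coeIdeal]
  constructor
  · rintro ⟨y, hy, h⟩
    have : y = x := FaithfulSMul.algebraMap_injective (𝓞 K) K h
    rwa [← this]
  · intro h
    exact ⟨x, h, rfl⟩

theorem two_ne : ((Ideal.span {(2 : 𝓞 K)} : Ideal (𝓞 K)) : FI K) ≠ 0 := by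
  rw [Ne, FractionalIdeal.coeIdeal_eq_zero, Ideal.span_singleton_eq_bot]
  exact two_ne_zero

theorem e_mul_Mz {e : Ideal (𝓞 K)} (he : e ≠ ⊥) :
    (e : FI K) * Mz K e = ((Ideal.span {(2 : 𝓞 K)} : Ideal (𝓞 K)) : FI K) := by
  have heF : (e : FI K) ≠ 0 := FractionalIdeal.coeIdeal_ne_zero.mpr he
  rw [Mz, mul_left_comm, mul_inv_cancel₀ heF, mul_one]

theorem Mz_ne {e : Ideal (𝓞 K)} (he : e ≠ ⊥) : Mz K e ≠ 0 := by
  have heF : (e : FI K) ≠ 0 := FractionalIdeal.coeIdeal_ne_zero.mpr he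
  rw [Mz]
  exact mul_ne_zero two_ne (inv_ne_zero heF)

theorem pf_PI (hGX : Pool.Agent.H29.TC.T_GX) : D_PI := by
  intro K _ _ k e k' hk hke h2
  have he : e ≠ ⊥ := by
    rintro rfl
    exact hk (by rw [hke, Ideal.bot_mul])
  have heF : (e : FI K) ≠ 0 := FractionalIdeal.coeIdeal_ne_zero.mpr he
  have hkF : (k : FI K) ≠ 0 := FractionalIdeal.coeIdeal_ne_zero.mpr hk
  have hMz : Mz K e ≠ 0 := Mz_ne he
  obtain ⟨y₁, hy⟩ := hGX K k (Mz K e) hk hMz
  obtain ⟨p, hp⟩ := hGX K k (e : FI K) hk heF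
  obtain ⟨π, hπe, rfl⟩ := (FractionalIdeal.mem_coeIdeal _).mp hp.mem
  have hkl : k ≤ e := hke.trans_le Ideal.mul_le_left
  have hspan : e = Ideal.span {π} ⊔ k := by
    apply le_antisymm
    · intro x hx
      obtain ⟨a, -, ha⟩ := hp.gen x ((coe_mem_iff e x).mpr hx)
      rw [← FractionalIdeal.coeIdeal_mul] at ha
      have h1 : x - a * π ∈ k * e := by
        rw [← coe_mem_iff, csub, cmul]
        exact ha
      have h3 : x = a * π + (x - a * π) := by ring
      rw [h3]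
      exact Submodule.add_mem_sup (Ideal.mul_mem_left _ _ (Ideal.mem_span_singleton_self π))
        ((Ideal.mul_le_left : k * e ≤ k) h1)
    · refine sup_le ?_ hkl
      rw [Ideal.span_singleton_le_iff_mem]
      exact hπe
  -- the product
  have hu0 : (π : K) * y₁ ∈ ((Ideal.span {(2 : 𝓞 K)} : Ideal (𝓞 K)) : FI K) := by
    rw [← e_mul_Mz he]
    exact FractionalIdeal.mul_mem_mul hp.mem hy.mem
  obtain ⟨u, hu2, hu⟩ := (FractionalIdeal.mem_coeIdeal _).mp hu0
  have hkk : (k : FI K) * ((e : FI K) * Mz K e) ≤ (k : FI K) := by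
    rw [e_mul_Mz he, ← FractionalIdeal.coeIdeal_mul, FractionalIdeal.coeIdeal_le_coeIdeal]
    exact Ideal.mul_le_left
  have hle : (e : FI K) * Mz K e ≤ ((Ideal.span {u} ⊔ k : Ideal (𝓞 K)) : FI K) := by
    rw [FractionalIdeal.mul_le]
    intro i hi j hj
    obtain ⟨a, -, ha⟩ := hp.gen i hi
    obtain ⟨b, -, hb⟩ := hy.gen j hj
    have h3 : i * j - ((a * b * u : 𝓞 K) : K) ∈ (k : FI K) := by
      apply hkk
      have e1 : i * j - ((a * b * u : 𝓞 K) : K) = (i - (a : K) * (π : K)) * j +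
          ((a : K) * (π : K)) * (j - (b : K) * y₁) := by
        rw [cmul, cmul, show ((u : 𝓞 K) : K) = (π : K) * y₁ from hu]
        ring
      rw [e1]
      refine fadd K _ ?_ ?_
      · rw [← mul_assoc]
        exact FractionalIdeal.mul_mem_mul ha hj
      · rw [mul_left_comm]
        exact FractionalIdeal.mul_mem_mul (smul_mem_FI _ a hp.mem) hb
    obtain ⟨z, hz, hz2⟩ := (FractionalIdeal.mem_coeIdeal _).mp h3
    have h4 : i * j = ((a * b * u + z : 𝓞 K) : K) := by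
      rw [cadd, show ((z : 𝓞 K) : K) = _ from hz2]
      ring
    rw [h4, coe_mem_iff]
    exact Submodule.add_mem_sup (Ideal.mul_mem_left _ _ (Ideal.mem_span_singleton_self u)) hz
  have hut : Ideal.span {u} ⊔ k = ⊤ := by
    rw [e_mul_Mz he, FractionalIdeal.coeIdeal_le_coeIdeal] at hle
    rw [eq_top_iff, ← h2]
    exact sup_le hle le_sup_right
  obtain ⟨s0, hs0⟩ : ∃ s0 : 𝓞 K, s0 * u - 1 ∈ k := by
    have h5 : (1 : 𝓞 K) ∈ Ideal.span {u} ⊔ k := by rw [hut]; trivial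
    obtain ⟨a, ha, b, hb, hab⟩ := Submodule.mem_sup.mp h5
    obtain ⟨s0, rfl⟩ := Ideal.mem_span_singleton'.mp ha
    refine ⟨s0, ?_⟩
    have h6 : s0 * u - 1 = -b := by rw [← hab]; ring
    rw [h6]
    exact neg_mem hb
  obtain ⟨s, hs, hss⟩ := exists_ne hk s0
  have hsu : s * u - 1 ∈ k := by
    have h7 : s * u - 1 = (s - s0) * u + (s0 * u - 1) := by ring
    rw [h7]
    exact add_mem (Ideal.mul_mem_right _ _ hss) hs0
  refine ⟨π, (s : K) * y₁, hke, hspan, gn_smul hk hy hs hsu, s * u - 1, ?_, ?_⟩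
  · have h8 : k ≤ k' := hke.trans_le Ideal.mul_le_right
    exact h8 hsu
  · rw [csub, cmul, show ((u : 𝓞 K) : K) = (π : K) * y₁ from hu]
    have h9 : ((1 : 𝓞 K) : K) = 1 := map_one (algebraMap (𝓞 K) K)
    rw [h9]
    ring

end Pool.Agent.H19.DM.PI
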