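import Pool.Agent.H71.DM.Targets
import Pool.Agent.H71.DM.Basic

set_option autoImplicit false

/-!
Modules RES and PLG: resampling.
-/

namespace Pool.Agent.H19.DM

open Finset Pool.Agent.H71.DM

/-- module RES -/
theorem res : ResampleStmt := by
  intro I X _ _ _ q hq E f
  have hw := prodW_prob hq
  set w : (I → X) → ℝ := prodW q with hwdef
  have hmul : ∀ x y : I → X, w (mix E x y) * w (mix E y x) = w x * w y := by
    intro x y
    simp only [hwdef, prodW]
    rw [← Finset.prod_mul_distrib, ← Finset.prod_mul_distrib]
    refine Finset.prod_congr rfl fun i _ => ?_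
    by_cases hi : i ∈ E
    · rw [mix_mem x y hi, mix_mem y x hi]
    · rw [mix_not_mem x y hi, mix_not_mem y x hi, mul_comm]
  have hinv : ∀ x y : I → X, mix E (mix E x y) (mix E y x) = x := by
    intro x y
    funext i
    by_cases hi : i ∈ E
    · rw [mix_mem _ _ hi, mix_mem _ _ hi]
    · rw [mix_not_mem _ _ hi, mix_not_mem _ _ hi]
  have h1 : ex w (fun x => ex w (fun y => f (mix E x y))) =
      ∑ p : (I → X) × (I → X), w (mix E p.1 p.2) * w (mix E p.2 p.1) * f (mix E p.1 p.2) := by
    rw [Fintype.sum_prod_type]
    unfold ex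
    refine Finset.sum_congr rfl fun x _ => ?_
    rw [Finset.mul_sum]
    refine Finset.sum_congr rfl fun y _ => ?_
    simp only
    rw [hmul x y]
    ring
  have h2 : ∑ p : (I → X) × (I → X), w (mix E p.1 p.2) * w (mix E p.2 p.1) * f (mix E p.1 p.2) =
      ∑ p : (I → X) × (I → X), w p.1 * w p.2 * f p.1 := by
    refine Fintype.sum_equiv
      ⟨fun p => (mix E p.1 p.2, mix E p.2 p.1), fun p => (mix E p.1 p.2, mix E p.2 p.1),
        fun p => ?_, fun p => ?_⟩ _ _ fun p => rfl
    · exact Prod.ext (hinv p.1 p.2) (hinv p.2 p.1)
    · exact Prod.ext (hinv p.1 p.2) (hinv p.2 p.1)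
  rw [h1, h2, Fintype.sum_prod_type]
  unfold ex
  refine Finset.sum_congr rfl fun x _ => ?_
  simp only
  rw [← Finset.sum_mul, ← Finset.mul_sum, hw.2, mul_one]

/-- the marginal law of a block of coordinates -/
theorem ex_block {I J X : Type} [Fintype I] [DecidableEq I] [Fintype J] [DecidableEq J]
    [Fintype X] {q : I → X → ℝ} {q' : J → X → ℝ} (hq' : ∀ i, IsProb (q' i))
    {e : I → J} (he : Function.Injective e) (hqq : ∀ i, q' (e i) = q i) (g : (I → X) → ℝ) :
    ex (prodW q') (fun w => g (fun i => w (e i))) = ex (prodW q) g := by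
  classical
  have key : ∀ x : I → X, ∑ w ∈ univ.filter (fun w : J → X => (fun i => w (e i)) = x),
      prodW q' w = prodW q x := by
    intro x
    set t : J → Finset X := fun j => if h : ∃ i, e i = j then {x h.choose} else univ with ht
    have hte : ∀ i, t (e i) = {x i} := by
      intro i
      have h : ∃ i', e i' = e i := ⟨i, rfl⟩
      simp only [ht]
      rw [dif_pos h]
      have : h.choose = i := he h.choose_spec
      rw [this]
    have htn : ∀ j, (¬ ∃ i, e i = j) → t j = univ := by
      intro j hj
      simp only [ht]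
      rw [dif_neg hj]
    have hfil : univ.filter (fun w : J → X => (fun i => w (e i)) = x) = Fintype.piFinset t := by
      ext w
      rw [mem_filter, Fintype.mem_piFinset]
      constructor
      · rintro ⟨-, h⟩ j
        by_cases hj : ∃ i, e i = j
        · obtain ⟨i, rfl⟩ := hj
          rw [hte, mem_singleton]
          exact congrFun h i
        · rw [htn j hj]
          exact mem_univ _
      · intro h
        refine ⟨mem_univ _, funext fun i => ?_⟩
        have := h (e i)
        rw [hte, mem_singleton] at this
        exact this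
    rw [hfil]
    unfold prodW
    rw [← Finset.prod_univ_sum]
    rw [← Finset.prod_subset (Finset.subset_univ (univ.image e))]
    · rw [Finset.prod_image fun i _ i' _ h => he h]
      refine Finset.prod_congr rfl fun i _ => ?_
      rw [hte, sum_singleton, hqq]
    · intro j _ hj
      rw [htn j, (hq' j).2]
      rintro ⟨i, rfl⟩
      exact hj (mem_image_of_mem e (mem_univ i))
  unfold ex
  have h1 : ∀ w : J → X, prodW q' w * g (fun i => w (e i)) =
      ∑ x : I → X, if (fun i => w (e i)) = x then prodW q' w * g x else 0 := by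
    intro w
    rw [Finset.sum_ite_eq]
    simp
  simp only [h1]
  rw [Finset.sum_comm]
  refine Finset.sum_congr rfl fun x _ => ?_
  rw [← Finset.sum_filter, ← Finset.sum_mul, key x]

/-- module PLG -/
theorem plg (h : ResampleStmt) : PlugStmt := by
  intro I J X _ _ _ _ _ q q' hq hq' e he hqq f
  classical
  have h1 := h J X q' hq' (univ.image e)ᶜ f
  rw [← h1]
  refine ex_congr fun w _ => ?_
  have h2 : ∀ w' : J → X, mix (univ.image e)ᶜ w w' = plug e (fun i => w' (e i)) w := by
    intro w'
    funext j
    by_cases hj : ∃ i, e i = j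
    · obtain ⟨i, rfl⟩ := hj
      rw [mix_not_mem _ _ (by simp)]
      unfold plug
      rw [he.extend_apply]
    · rw [mix_mem _ _ (by
        rw [mem_compl, mem_image]
        rintro ⟨i, -, hi⟩
        exact hj ⟨i, hi⟩)]
      unfold plug
      rw [Function.extend_apply' _ _ _ hj]
  simp only [h2]
  exact (ex_block hq' he hqq (fun x => f (plug e x w))).symm

end Pool.Agent.H19.DM
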